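import Pool.Agent.Lib.MP_f690a7_gt.OmF

/-!
Infinite staircases have irrational accumulation points (Q1), for every compact convex region `Ω`
of the plane with nonempty interior. The ellipsoid embedding function of the toric domain over `Ω`
is given by the ball packing (ECH) criterion for the weights of `Ω` and of the ellipsoid `E(1,a)`.
-/

namespace Pool.Agent.Results.MP_f690a7_gt.StaircaseIrrational

/-! ### Weights of an ellipsoid -/

/-- Side lengths of the rectangles of the Euclidean algorithm started at the rectangle `1 x a`: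
cut off the largest square, step by step. -/
noncomputable def rect (a : ℝ) : ℕ → ℝ × ℝ
  | 0 => (1, a)
  | n + 1 =>
    if (rect a n).1 ≤ (rect a n).2 then ((rect a n).1, (rect a n).2 - (rect a n).1)
    else ((rect a n).1 - (rect a n).2, (rect a n).2)

/-- The weight expansion of the ellipsoid `E(1,a)`: the sides of the successive squares
(`0` once the rectangle is exhausted). -/
noncomputable def weight (a : ℝ) (n : ℕ) : ℝ := min (rect a n).1 (rect a n).2

/-! ### Ball packings -/

/-- Balls of sizes `s i` pack the ball of size `B`: the obstruction inequality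
`sum s_i m_i ≤ B d` for all `d` and `m` with `sum (m_i^2 + m_i) ≤ d^2 + 3 d`. -/
def BallsPack {κ : Type} (B : ℝ) (s : κ → ℝ) : Prop :=
  ∀ (d : ℕ) (m : κ →₀ ℕ), (m.sum fun _ k => k ^ 2 + k) ≤ d ^ 2 + 3 * d →
    (m.sum fun i k => s i * (k : ℝ)) ≤ B * d

/-! ### Weights of a convex region -/

/-- Support function: the maximum of `n.1 x + n.2 y` on `Ω`. -/
noncomputable def supp (Ω : Set (ℝ × ℝ)) (n : ℤ × ℤ) : ℝ :=
  sSup ((fun x : ℝ × ℝ => (n.1 : ℝ) * x.1 + (n.2 : ℝ) * x.2) '' Ω)

/-- The outward normals of the standard triangle. -/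
def normal : Fin 3 → ℤ × ℤ := ![(1, 1), (-1, 0), (0, -1)]

/-- Stern-Brocot pairs of normals below the pair `(u, v)`. -/
def pair : ℤ × ℤ → ℤ × ℤ → List Bool → (ℤ × ℤ) × (ℤ × ℤ)
  | u, v, [] => (u, v)
  | u, v, false :: l => pair u (u + v) l
  | u, v, true :: l => pair (u + v) v l

/-- Size of the smallest standard triangle (translate of `{x, y ≥ 0, x + y ≤ b}`) containing `Ω`. -/
noncomputable def triangleSize (Ω : Set (ℝ × ℝ)) : ℝ :=
  supp Ω (1, 1) + supp Ω (-1, 0) + supp Ω (0, -1)

/-- The other weights of `Ω`: the sizes of the triangles successively cut off at the three corners,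
between the supporting lines with normals `u`, `v` and `u + v`, for all Stern-Brocot pairs. -/
noncomputable def cut (Ω : Set (ℝ × ℝ)) (j : Fin 3 × List Bool) : ℝ :=
  supp Ω (pair (normal j.1) (normal (j.1 + 1)) j.2).1 +
    supp Ω (pair (normal j.1) (normal (j.1 + 1)) j.2).2 -
    supp Ω ((pair (normal j.1) (normal (j.1 + 1)) j.2).1 +
      (pair (normal j.1) (normal (j.1 + 1)) j.2).2)

/-! ### The embedding function -/

/-- The ellipsoid embedding function `c_Ω(a)`: the infimum of the `c > 0` for which the weights of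
`E(1,a)` together with `c` times the cuts of `Ω` pack the ball of size `c` times `triangleSize`. -/
noncomputable def embed (Ω : Set (ℝ × ℝ)) (a : ℝ) : ℝ :=
  sInf {c : ℝ | 0 < c ∧
    BallsPack (c * triangleSize Ω) (Sum.elim (fun j => c * cut Ω j) (weight a))}

/-- `X_Ω` has an infinite staircase: infinitely many non-smooth points in a compact interval. -/
def InfiniteStaircase (Ω : Set (ℝ × ℝ)) : Prop :=
  ∃ R : ℝ, {a : ℝ | 1 ≤ a ∧ a ≤ R ∧
    ¬ ContDiffAt ℝ ((⊤ : ℕ∞) : WithTop ℕ∞) (embed Ω) a}.Infinite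

/-! ### Volume, affine perimeter, accumulation point -/

/-- `Vol(Ω)`, twice the area. -/
noncomputable def Vol (Ω : Set (ℝ × ℝ)) : ℝ := 2 * (MeasureTheory.volume Ω).toReal

/-- Lattice length of the boundary segment of `Ω` with primitive outward normal `n`
(`0` if there is only a point). -/
noncomputable def latticeLength (Ω : Set (ℝ × ℝ)) (n : ℤ × ℤ) : ℝ :=
  sSup {t : ℝ | ∃ x ∈ Ω, (n.1 : ℝ) * x.1 + (n.2 : ℝ) * x.2 = supp Ω n ∧
    (x.1 - t * n.2, x.2 + t * n.1) ∈ Ω}

/-- `Per(Ω)`, the affine perimeter. -/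
noncomputable def Per (Ω : Set (ℝ × ℝ)) : ℝ :=
  ∑' n : {n : ℤ × ℤ // IsCoprime n.1 n.2}, latticeLength Ω n.1

/-- `a` is the accumulation point `a_0` of `Ω`. -/
def IsAccumulationPoint (Ω : Set (ℝ × ℝ)) (a : ℝ) : Prop :=
  1 ≤ a ∧ a ^ 2 - a * (Per Ω ^ 2 / Vol Ω - 2) + 1 = 0

/-! ### Comparison with the definitions of the library files -/

theorem rect_eq (a : ℝ) (n : ℕ) : rect a n = Pool.Agent.Stair.eu 1 a n := by
  induction n with
  | zero => rfl
  | succ n ih => rw [rect, Pool.Agent.Stair.eu, ih]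

theorem weight_eq (a : ℝ) : weight a = Pool.Agent.Stair.wt 1 a := by
  funext n
  rw [weight, Pool.Agent.Stair.wt, rect_eq]

theorem pair_eq (l : List Bool) : ∀ u v : ℤ × ℤ, pair u v l = Pool.Agent.Stair.sbp u v l := by
  induction l with
  | nil => intro u v; rfl
  | cons b l ih =>
    intro u v
    cases b
    · rw [pair, Pool.Agent.Stair.sbp, ih]
    · rw [pair, Pool.Agent.Stair.sbp, ih]

theorem cut_eq (Ω : Set (ℝ × ℝ)) : cut Ω = Pool.Agent.Stair.wOm Ω := by
  funext j
  simp only [cut, Pool.Agent.Stair.wOm, pair_eq]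
  rfl

theorem embed_eq (Ω : Set (ℝ × ℝ)) : embed Ω = Pool.Agent.Stair.cOm Ω := by
  funext a
  rw [embed, weight_eq, cut_eq]
  rfl

/-- If `X_Ω` has an infinite staircase, then `Per^2 / Vol` is at least `4` (so that the accumulation
point is defined) and the accumulation point is irrational. -/
theorem result (Ω : Set (ℝ × ℝ)) (hc : IsCompact Ω) (hconv : Convex ℝ Ω)
    (hint : (interior Ω).Nonempty) (h : InfiniteStaircase Ω) :
    4 ≤ Per Ω ^ 2 / Vol Ω ∧ ∀ a : ℝ, IsAccumulationPoint Ω a → Irrational a := by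
  obtain ⟨R, hR⟩ := h
  rw [embed_eq] at hR
  obtain ⟨h1, h2⟩ := Pool.Agent.Stair.final_omega hc hconv hint R hR
  exact ⟨h1, fun a ha => h2 a ha.1 ha.2⟩

end Pool.Agent.Results.MP_f690a7_gt.StaircaseIrrational
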